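import Pool.Agent.H197R3.SF.Stmts

set_option autoImplicit false

namespace Pool.Agent.H73W.SF

open MeasureTheory Filter Topology Set
open Pool.Agent.H197R3.SF

theorem taskOut : TaskOut := by
  classical
  rintro σ F hσ ⟨f, c, h⟩
  have hS : (Function.support c).Countable := by
    refine h.summ.countable_support.mono ?_
    intro t ht
    rw [Function.mem_support] at ht ⊢
    exact mul_ne_zero (norm_ne_zero_iff.2 ht) (Real.exp_pos _).ne'
  have := hS.toEncodable
  let e : Function.support c → ℕ := Encodable.encode
  have he : Function.Injective e := Encodable.encode_injective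
  let τ : ℕ → ℝ := Function.extend e (fun s => (s : ℝ)) 0
  let c' : ℕ → ℂ := Function.extend e (fun s => c s) 0
  have hτ : ∀ s, τ (e s) = s := fun s => he.extend_apply _ _ s
  have hc : ∀ s, c' (e s) = c s := fun s => he.extend_apply _ _ s
  have hc0 : ∀ k, k ∉ Set.range e → c' k = 0 := by
    intro k hk
    exact Function.extend_apply' _ _ _ (fun ⟨s, hs⟩ => hk ⟨s, hs⟩)
  have hτ0 : ∀ k, k ∉ Set.range e → τ k = 0 := by
    intro k hk
    exact Function.extend_apply' _ _ _ (fun ⟨s, hs⟩ => hk ⟨s, hs⟩)
  have hpos : ∀ s : Function.support c, (0 : ℝ) ≤ s := by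
    rintro ⟨t, ht⟩
    by_contra hneg
    exact ht (h.cK t hneg)
  refine ⟨f, c', τ, ?_, ?_, ?_, ?_⟩
  · intro k
    by_cases hk : k ∈ Set.range e
    · obtain ⟨s, rfl⟩ := hk
      rw [hτ]
      exact hpos s
    · rw [hτ0 k hk]
  · have h1 : IntegrableOn (fun t : ℝ => f t * wt σ t) (Ici 0) := h.intg.integrableOn
    refine IntegrableOn.congr_fun h1 ?_ measurableSet_Ici
    intro t ht
    simp only [wt]
    rw [abs_of_nonneg (mem_Ici.1 ht)]
  · rw [← he.summable_iff]
    · have h2 : Summable (fun s : Function.support c => ‖c s‖ * Real.exp (σ * |(s : ℝ)|)) :=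
        h.summ.subtype _
      refine h2.congr ?_
      intro s
      simp only [Function.comp_apply]
      rw [hτ, hc, abs_of_nonneg (hpos s)]
    · intro k hk
      rw [hc0 k hk, norm_zero, zero_mul]
  · intro ω
    rw [h.eq ω]
    congr 1
    · symm
      apply setIntegral_eq_integral_of_forall_compl_eq_zero
      intro t ht
      rw [h.fE t ht, zero_mul]
    · have h3 : ∑' k : ℕ, c' k * Complex.exp (-((ω : ℂ) * ((τ k : ℝ) : ℂ) * Complex.I)) =
          ∑' s : Function.support c, c s * ch ω s := by
        rw [← he.tsum_eq]
        · apply tsum_congr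
          intro s
          rw [hτ, hc]
          rfl
        · intro k hk
          by_contra hk'
          rw [Function.mem_support, hc0 k hk', zero_mul] at hk
          exact hk rfl
      rw [h3]
      symm
      apply tsum_subtype_eq_of_support_subset (f := fun t : ℝ => c t * ch ω t)
      intro t ht
      rw [Function.mem_support] at ht ⊢
      exact left_ne_zero_of_mul ht

end Pool.Agent.H73W.SF
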